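import Pool.Agent.Y527.ZA.Stm

/-!
# Project ZA: every abelian algebraic integer is the value of a polynomial with natural coefficients
at a root of unity (helper171)
-/

set_option autoImplicit false

namespace Pool.Agent.Y171.ZA

open Polynomial Pool.Agent.H358R3 Pool.Agent.Y527.ZA

section

variable {R : Type} [CommRing R] (x : R)

lemma ev_nil : ev [] x = 0 := rfl

lemma ev_cons (c : ℕ) (l : List ℕ) : ev (c :: l) x = (c : R) + x * ev l x := rfl

lemma ev_add (l l' : List ℕ) : ∃ l'' : List ℕ, ev l'' x = ev l x + ev l' x := by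
  induction l generalizing l' with
  | nil => exact ⟨l', by rw [ev_nil, zero_add]⟩
  | cons a l ih =>
    rcases l' with _ | ⟨b, l'⟩
    · exact ⟨a :: l, by rw [ev_nil, add_zero]⟩
    · obtain ⟨l'', h⟩ := ih l'
      exact ⟨(a + b) :: l'', by rw [ev_cons, ev_cons, ev_cons, h]; push_cast; ring⟩

lemma ev_nsmul (a : ℕ) (l : List ℕ) : ∃ l' : List ℕ, ev l' x = (a : R) * ev l x := by
  induction a with
  | zero => exact ⟨[], by rw [ev_nil, Nat.cast_zero, zero_mul]⟩
  | succ a ih =>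
    obtain ⟨l', h⟩ := ih
    obtain ⟨l'', h'⟩ := ev_add x l' l
    exact ⟨l'', by rw [h', h]; push_cast; ring⟩

lemma ev_mul (l l' : List ℕ) : ∃ l'' : List ℕ, ev l'' x = ev l x * ev l' x := by
  induction l with
  | nil => exact ⟨[], by rw [ev_nil, zero_mul]⟩
  | cons a l ih =>
    obtain ⟨m, h⟩ := ih
    obtain ⟨m', h'⟩ := ev_nsmul x a l'
    obtain ⟨m'', h''⟩ := ev_add x m' (0 :: m)
    exact ⟨m'', by rw [h'', h', ev_cons, h, ev_cons]; push_cast; ring⟩

/-- the values of the polynomials with natural coefficients -/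
def T : Subsemiring R where
  carrier := {y | ∃ l : List ℕ, ev l x = y}
  mul_mem' := by
    rintro _ _ ⟨l, rfl⟩ ⟨l', rfl⟩
    exact ev_mul x l l'
  one_mem' := ⟨[1], by rw [ev_cons, ev_nil]; simp⟩
  add_mem' := by
    rintro _ _ ⟨l, rfl⟩ ⟨l', rfl⟩
    exact ev_add x l l'
  zero_mem' := ⟨[], rfl⟩

lemma mem_T {y : R} : y ∈ T x ↔ ∃ l : List ℕ, ev l x = y := Iff.rfl

lemma self_mem_T : x ∈ T x := ⟨[0, 1], by simp [ev_cons, ev_nil]⟩

lemma aeval_mem_T (hneg : (-1 : R) ∈ T x) (g : ℤ[X]) : aeval x g ∈ T x := by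
  have hint : ∀ a : ℤ, (a : R) ∈ T x := by
    intro a
    rcases a with n | n
    · simpa using natCast_mem (T x) n
    · have h1 := mul_mem hneg (natCast_mem (T x) (n + 1))
      have e : ((Int.negSucc n : ℤ) : R) = -1 * ((n + 1 : ℕ) : R) := by
        rw [Int.cast_negSucc]; ring
      rw [e]
      exact h1
  induction g using Polynomial.induction_on with
  | C a =>
    rw [aeval_C]
    simpa using hint a
  | add p q hp hq =>
    rw [map_add]
    exact add_mem hp hq
  | monomial n a _ =>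
    rw [map_mul, aeval_C, map_pow, aeval_X]
    exact mul_mem (by simpa using hint a) (pow_mem (self_mem_T x) _)

end

lemma neg_mem (k : ℕ) (x : Zab) (hx : IsPrimitiveRoot x (k + 2)) : (-1 : Zab) ∈ T x := by
  have h1 := hx.geom_sum_eq_zero (by omega)
  rw [Finset.sum_range_succ', pow_zero] at h1
  have h2 : (-1 : Zab) = ∑ i ∈ Finset.range (k + 1), x ^ (i + 1) :=
    (eq_neg_of_add_eq_zero_left h1).symm
  rw [h2]
  exact sum_mem fun i _ => pow_mem (self_mem_T x) _

lemma rep_int (x : Zab) : ∃ (k : ℕ) (g : ℤ[X]), x = aeval (zR (k + 2) (by omega)) g := by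
  obtain ⟨n, hn, h⟩ := exists_mem (inc_mem x)
  obtain ⟨k, hk⟩ : ∃ k, 2 * n = k + 2 := ⟨2 * n - 2, by omega⟩
  have hm : k + 2 ≠ 0 := by omega
  have h2 : inc x ∈ IntermediateField.adjoin ℚ {zt (k + 2)} :=
    zt_adj_le hm (by rw [← hk]; exact Dvd.intro_left 2 rfl) h
  have hne : NeZero (k + 2) := ⟨hm⟩
  have hcyc : IsCyclotomicExtension {k + 2} ℚ (IntermediateField.adjoin ℚ {zt (k + 2)}) := by
    change IsCyclotomicExtension {k + 2} ℚ
      (IntermediateField.adjoin ℚ {zt (k + 2)}).toSubalgebra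
    rw [IntermediateField.adjoin_simple_toSubalgebra_of_isAlgebraic
      (zt_isIntegral (k + 2) hm).isAlgebraic]
    exact (zt_prim (k + 2) hm).adjoin_isCyclotomicExtension ℚ
  set K := IntermediateField.adjoin ℚ {zt (k + 2)} with hK
  set ζ : K := ⟨zt (k + 2), IntermediateField.mem_adjoin_simple_self ℚ (zt (k + 2))⟩ with hζ
  have hζp : IsPrimitiveRoot ζ (k + 2) := by
    refine IsPrimitiveRoot.of_map_of_injective (f := algebraMap K ℂ) ?_
      (algebraMap K ℂ).injective
    exact zt_prim (k + 2) hm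
  have hcl := IsCyclotomicExtension.Rat.isIntegralClosure_adjoin_singleton hζp
  have hy : IsIntegral ℤ (⟨inc x, h2⟩ : K) :=
    (isIntegral_algebraMap_iff (A := K) (B := ℂ) (R := ℤ) (x := ⟨inc x, h2⟩)
      Subtype.val_injective).1 (inc_int x)
  obtain ⟨y, hy'⟩ := hcl.isIntegral_iff.1 hy
  have hymem : ∀ w : K, w ∈ Algebra.adjoin ℤ {ζ} → ∃ g : ℤ[X], aeval ζ g = w := by
    intro w hw
    rw [Algebra.adjoin_singleton_eq_range_aeval] at hw
    exact hw
  obtain ⟨g, hg⟩ := hymem y.1 y.2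
  refine ⟨k, g, inc_inj ?_⟩
  have e1 : inc (aeval (zR (k + 2) hm) g) = aeval (zt (k + 2)) g := hom_rep inc _ g
  have e2 : aeval (zt (k + 2)) g = (((aeval ζ g : K)) : ℂ) := by
    have h3 := aeval_algHom_apply ((algebraMap K ℂ).toIntAlgHom) ζ g
    exact h3
  have e3 : (aeval ζ g : K) = ⟨inc x, h2⟩ := by
    rw [← hy']
    exact hg
  rw [e1, e2, e3]

theorem h_SURJ : s_SURJ := by
  intro x
  obtain ⟨k, g, hg⟩ := rep_int x
  obtain ⟨l, hl⟩ := (mem_T _).1 (aeval_mem_T _ (neg_mem k _ (zR_prim (k + 2) (by omega))) g)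
  refine ⟨Nat.pair (k + 1) (Encodable.encode l), ?_⟩
  unfold dec
  simp only [Nat.unpair_pair, Denumerable.ofNat_encode]
  rw [hg]
  exact hl

end Pool.Agent.Y171.ZA
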